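import Pool.Agent.Helper56.LD.Goals

/-!
Packet LD-CO7 (StmtAuxBwd) for MP_0152c0_gt, by helper25.
-/

set_option autoImplicit false

namespace Pool.Agent.Helper25.LD

open Pool.Agent.Helper56.LD Set

lemma not_isMain_inr (q : Bool × Fin 3) : ¬ IsMain (Sum.inr q : Lab) := by
  rintro ⟨τ, h⟩; cases h

lemma isAux_inr (q : Bool × Fin 3) : IsAux (Sum.inr q : Lab) := ⟨q, rfl⟩

lemma not_main_of_aux {l : Lab} (h : IsAux l) : ¬ IsMain l := by
  rintro ⟨τ, h'⟩
  obtain ⟨q, hq⟩ := h
  rw [hq] at h'
  cases h'

lemma eqv_of {L : Type} (b : ℕ → L → Prop) (e s : ℕ → L) (p : ℕ)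
    (hlow : ∀ j, 1 ≤ j → j < p → ¬ b j (e j) ∧ ¬ b j (s j))
    (hhigh : ∀ j, p ≤ j → 1 ≤ j → e j = s j) : Eqv b e s := by
  intro l
  constructor
  · constructor
    · intro h j hj hjl
      by_cases hp : j < p
      · exact (hlow j hj hp).2
      · rw [← hhigh j (not_lt.mp hp) hj]
        exact h j hj hjl
    · intro h j hj hjl
      by_cases hp : j < p
      · exact (hlow j hj hp).1
      · rw [hhigh j (not_lt.mp hp) hj]
        exact h j hj hjl
  · intro h
    by_cases hl0 : l = 0
    · exfalso
      apply h
      intro j hj hjl
      omega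
    by_cases hlp : l < p
    · exfalso
      apply h
      intro j hj hjl
      exact (hlow j hj (lt_of_le_of_lt hjl hlp)).1
    · exact hhigh l (not_lt.mp hlp) (by omega)

lemma fin3_cases (x τ : Fin 3) : x = τ ∨ x = τ + 1 ∨ x = τ + 2 := by
  revert x τ; decide

lemma fin3_a (τ τ' : Fin 3) (h : τ = τ' ∨ τ = τ' + 1) : τ' + 2 ≠ τ := by
  revert τ τ'; decide

lemma fin3_b (τ : Fin 3) : τ + 1 ≠ τ ∧ τ + 2 ≠ τ := by
  revert τ; decide

lemma fin3_c (x τ : Fin 3) : ∃ y : Fin 3, (y = x ∨ y = x + 1) ∧ (y = τ + 1 ∨ y = τ + 2) := by
  revert x τ; decide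

lemma fin3_d (y τ : Fin 3) (h : y = τ + 1 ∨ y = τ + 2) : τ + 2 = y ∨ τ + 2 = y + 1 := by
  revert y τ; decide

/-- the switch: replace everything below the first main level by the other kind. -/
lemma switch (u : ℕ → Fin 3) (n : ℕ) (κ : Bool) (τ : Fin 3) (e' : ℕ → Lab) (he' : e' ∈ ES)
    (ν : ℕ) (hν : IsNu e' ν) (hν1 : 1 ≤ ν)
    (hu : ∀ j, 1 ≤ j → j < ν → ¬ blk u n (Sum.inr (κ, τ, u n)) j (e' j)) :
    ∃ e ∈ ES, AuxOK n κ τ e ∧ Eqv (blk u n (Sum.inr (κ, τ, u n))) e' e ∧
      ∀ j, (IsMain (e j) ∨ IsMain (e' j)) → e j = e' j := by
  refine ⟨fun j => if j < ν then Sum.inr (!κ, 0) else e' j, ?_, ?_, ?_, ?_⟩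
  · intro j
    have hj := he' j
    by_cases h1 : j + 1 < ν
    · have h2 : j < ν := by omega
      simp only [h1, h2, if_true]
      exact ⟨rfl, Or.inl rfl⟩
    · by_cases h2 : j < ν
      · have h3 : j + 1 = ν := by omega
        simp only [h1, h2, if_true, if_false]
        rw [h3]
        obtain ⟨σ, hσ⟩ := hν.1
        rw [hσ]
        trivial
      · simp only [h1, h2, if_false]
        exact hj
  · right; left
    refine ⟨0, ?_⟩
    have : (0 : ℕ) < ν := by omega
    simp only [this, if_true]
  · apply eqv_of _ _ _ ν
    · intro j hj hjν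
      refine ⟨hu j hj hjν, ?_⟩
      simp only [hjν, if_true]
      rintro ⟨h, -⟩
      revert h
      cases κ <;> simp
    · intro j hj _
      have : ¬ j < ν := by omega
      simp only [this, if_false]
  · intro j hj
    by_cases hjν : j < ν
    · exfalso
      simp only [hjν, if_true] at hj
      rcases hj with hj | hj
      · exact not_isMain_inr _ hj
      · exact not_main_of_aux (hν.2 j hjν) hj
    · simp only [hjν, if_false]

theorem auxBwd (hES : StmtES) : StmtAuxBwd := by
  obtain ⟨-, -, hup, hkind, -⟩ := hES
  intro u hu n κ τ τ' hn hτ e' he' hok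
  -- trivial cases
  have triv : (IsMain (e' 0) ∨ ∃ t, e' 0 = Sum.inr (!κ, t)) →
      ∃ e ∈ ES, AuxOK n κ τ e ∧ Eqv (blk u n (Sum.inr (κ, τ, u n))) e' e ∧
      ∀ j, (IsMain (e j) ∨ IsMain (e' j)) → e j = e' j := by
    intro h
    refine ⟨e', he', ?_, ?_, fun j _ => rfl⟩
    · rcases h with h | h
      · exact Or.inl h
      · exact Or.inr (Or.inl h)
    · exact fun l => ⟨Iff.rfl, fun _ => rfl⟩
  rcases hok with h | h | ⟨ν, k, hν, hk, hleg⟩
  · exact triv (Or.inl h)
  · exact triv (Or.inr h)
  by_cases hν0 : ν = 0
  · exact triv (Or.inl (hν0 ▸ hν.1))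
  have hν1 : 1 ≤ ν := by omega
  obtain ⟨⟨κ0, t0⟩, h0⟩ := hν.2 0 (by omega)
  by_cases hκ : κ0 = κ
  swap
  · apply triv
    right
    refine ⟨t0, ?_⟩
    rw [h0]
    congr 2
    revert hκ
    cases κ <;> cases κ0 <;> simp
  subst hκ
  have hall : ∀ j, j < ν → ∃ t, e' j = Sum.inr (κ0, t) := by
    intro j hj
    obtain ⟨⟨κ1, t1⟩, h1⟩ := hν.2 j hj
    obtain ⟨t', ht'⟩ := hkind e' he' 0 j κ1 t1 (Nat.zero_le j) h1
    rw [h0] at ht'
    have : κ0 = κ1 := by
      have := Sum.inr.inj ht'
      exact (Prod.mk.inj this).1
    subst this
    exact ⟨t1, h1⟩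
  rcases hleg with h1 | ⟨h21, h22, h23, hBB⟩
  · by_cases h1a : 2 ^ (k + 1) ≤ n
    · refine ⟨e', he', Or.inr (Or.inr ⟨ν, k, hν, hk, Or.inl h1a⟩), ?_, fun j _ => rfl⟩
      exact fun l => ⟨Iff.rfl, fun _ => rfl⟩
    · have hn1 : n + 1 = 2 ^ (k + 1) := by omega
      by_cases hk0 : k = 0
      · subst hk0
        have hν2 : ν = 1 := by
          have := hk.1
          simp at this
          omega
        apply switch u n κ0 τ e' he' ν hν hν1
        intro j hj hj2
        omega
      · have hν2 : 1 < ν := by
          have := hk.2 0 (by omega)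
          simpa using this
        have hpk : 2 ≤ 2 ^ k := by
          calc 2 = 2 ^ 1 := by norm_num
            _ ≤ 2 ^ k := Nat.pow_le_pow_right (by norm_num) (by omega)
        have hpk1 : 2 ^ (k + 1) = 2 * 2 ^ k := by rw [pow_succ]; ring
        obtain ⟨x, hx⟩ := hall 1 hν2
        obtain ⟨y, hy1, hy2⟩ := fin3_c x τ
        refine ⟨fun j => if j = 0 then Sum.inr (κ0, y) else e' j, ?_, ?_, ?_, ?_⟩
        · intro j
          have hj := he' j
          by_cases hj0 : j = 0
          · subst hj0
            simp only [if_true, Nat.zero_add, one_ne_zero, if_false]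
            rw [hx]
            exact ⟨rfl, hy1⟩
          · have : j + 1 ≠ 0 := by omega
            simp only [hj0, this, if_false]
            exact hj
        · right; right
          refine ⟨ν, k, ⟨?_, ?_⟩, hk, Or.inr ⟨by omega, by omega, by omega, ?_⟩⟩
          · simp only [hν0, if_false]
            exact hν.1
          · intro j hj
            by_cases hj0 : j = 0
            · simp only [hj0, if_true]
              exact isAux_inr _
            · simp only [hj0, if_false]
              exact hν.2 j hj
          · have hm : 2 ^ (k + 1) - n = 1 := by omega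
            rw [hm]
            refine ⟨fun j hj => by omega, ?_⟩
            simp only [Nat.sub_self, if_true]
            rcases hy2 with h | h
            · left; rw [h]
            · right; rw [h]
        · apply eqv_of _ _ _ 1
          · intro j hj hj1
            omega
          · intro j hj _
            have : j ≠ 0 := by omega
            simp only [this, if_false]
        · intro j hj
          by_cases hj0 : j = 0
          · exfalso
            subst hj0
            simp only [if_true] at hj
            rcases hj with hj | hj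
            · exact not_isMain_inr _ hj
            · rw [h0] at hj
              exact not_isMain_inr _ hj
          · simp only [hj0, if_false]
  · -- second alternative
    obtain ⟨m', hm'⟩ : ∃ m', m' = 2 ^ (k + 1) - (n + 1) := ⟨_, rfl⟩
    rw [← hm'] at h23 hBB
    have hpk1 : 2 ^ (k + 1) = 2 * 2 ^ k := by rw [pow_succ]; ring
    have hm'1 : 1 ≤ m' := by omega
    have hm'2 : m' < 2 ^ k := by omega
    have hgw := hu k n m' (by omega) hm'1 hm'2
    have claim : ∀ j, 1 ≤ j → j ≤ m' → j < n →
        ¬ blk u n (Sum.inr (κ0, τ, u n)) j (e' j) := by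
      intro j hj hjm hjn
      obtain ⟨t, ht⟩ := hall j (by omega)
      rw [ht]
      rintro ⟨-, h | ⟨h1, h2⟩⟩
      · have : n ≤ j := by exact_mod_cast h
        omega
      · by_cases hc1 : j + 1 < m'
        · have := hBB.1 j hc1
          rw [ht] at this
          have h3 : t = τ' + 2 := (Prod.mk.inj (Sum.inr.inj this)).2
          exact fin3_a τ τ' hτ (h3.symm.trans h1)
        · by_cases hc2 : j = m'
          · subst hc2
            exact hgw.1 h2.symm
          · have hc3 : j = m' - 1 := by omega
            have := hgw.2 (by omega)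
            rw [← hc3] at this
            exact this h2.symm
    by_cases h2a : n = 2 ^ k
    · have hνk := hk.1
      have hν3 : ν = m' + 1 := by omega
      apply switch u n κ0 τ e' he' ν hν hν1
      intro j hj hj2
      exact claim j hj (by omega) (by omega)
    · have hnk : 2 ^ k < n := by omega
      obtain ⟨m, hm⟩ : ∃ m, m = m' + 1 := ⟨_, rfl⟩
      have hm2 : m = 2 ^ (k + 1) - n := by omega
      have hm3 : m < n := by omega
      by_cases hmν : m = ν
      · apply switch u n κ0 τ e' he' ν hν hν1
        intro j hj hj2
        exact claim j hj (by omega) (by omega)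
      · have hmν2 : m < ν := by omega
        obtain ⟨x, hx⟩ := hall m hmν2
        obtain ⟨y, hy1, hy2⟩ := fin3_c x τ
        have hlow : ∀ j, j < m → ∃ t : Fin 3, (t = τ + 1 ∨ t = τ + 2) ∧
            (if m ≤ j then e' j else if j + 1 = m then Sum.inr (κ0, y)
              else (Sum.inr (κ0, τ + 2) : Lab)) = Sum.inr (κ0, t) := by
          intro j hj
          have h1 : ¬ m ≤ j := by omega
          by_cases h2 : j + 1 = m
          · refine ⟨y, hy2, ?_⟩
            simp only [h1, h2, if_true, if_false]
          · refine ⟨τ + 2, Or.inr rfl, ?_⟩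
            simp only [h1, h2, if_false]
        have hhigh : ∀ j, m ≤ j → (if m ≤ j then e' j else if j + 1 = m then Sum.inr (κ0, y)
              else (Sum.inr (κ0, τ + 2) : Lab)) = e' j := by
          intro j hj
          simp only [hj, if_true]
        refine ⟨fun j => if m ≤ j then e' j else if j + 1 = m then Sum.inr (κ0, y)
          else Sum.inr (κ0, τ + 2), ?_, ?_, ?_, ?_⟩
        · intro j
          have hj := he' j
          by_cases hj1 : m ≤ j
          · have hj2 : m ≤ j + 1 := by omega
            simp only [hj1, hj2, if_true]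
            exact hj
          · by_cases hj2 : j + 1 = m
            · have hj3 : m ≤ j + 1 := by omega
              have hj4 : ¬ m ≤ j := hj1
              simp only [hj3, hj4, if_true, if_false]
              rw [if_pos hj2, hj2, hx]
              exact ⟨rfl, hy1⟩
            · have hj3 : ¬ m ≤ j + 1 := by omega
              by_cases hj4 : j + 1 + 1 = m
              · simp only [hj1, hj3, hj2, hj4, if_true, if_false]
                exact ⟨rfl, fin3_d y τ hy2⟩
              · simp only [hj1, hj3, hj2, hj4, if_false]
                exact ⟨rfl, Or.inl rfl⟩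
        · right; right
          refine ⟨ν, k, ⟨?_, ?_⟩, hk, Or.inr ⟨hnk, by omega, by omega, ?_⟩⟩
          · have : m ≤ ν := by omega
            simp only [this, if_true]
            exact hν.1
          · intro j hj
            by_cases hj1 : m ≤ j
            · simp only [hj1, if_true]
              exact hν.2 j hj
            · obtain ⟨t, -, ht⟩ := hlow j (by omega)
              show IsAux (if m ≤ j then e' j else if j + 1 = m then Sum.inr (κ0, y)
                  else (Sum.inr (κ0, τ + 2) : Lab))
              rw [ht]
              exact isAux_inr _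
          · rw [← hm2]
            constructor
            · intro j hj
              have h1 : ¬ m ≤ j := by omega
              have h2 : ¬ j + 1 = m := by omega
              simp only [h1, h2, if_false]
            · have h1 : ¬ m ≤ m - 1 := by omega
              have h2 : m - 1 + 1 = m := by omega
              simp only [h1, h2, if_true, if_false]
              rcases hy2 with h | h
              · left; rw [h]
              · right; rw [h]
        · apply eqv_of _ _ _ m
          · intro j hj hjm
            refine ⟨claim j hj (by omega) (by omega), ?_⟩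
            obtain ⟨t, ht1, ht2⟩ := hlow j hjm
            show ¬ blk u n (Sum.inr (κ0, τ, u n)) j _
            rw [ht2]
            rintro ⟨-, h | ⟨h1, h2⟩⟩
            · have : n ≤ j := by exact_mod_cast h
              omega
            · rcases ht1 with h | h
              · exact (fin3_b τ).1 (h.symm.trans h1)
              · exact (fin3_b τ).2 (h.symm.trans h1)
          · intro j hj _
            exact (hhigh j hj).symm
        · intro j hj
          by_cases hj1 : m ≤ j
          · exact hhigh j hj1
          · exfalso
            obtain ⟨t, -, ht⟩ := hlow j (by omega)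
            rcases hj with hj | hj
            · have hj' : IsMain (if m ≤ j then e' j else if j + 1 = m then Sum.inr (κ0, y)
                  else (Sum.inr (κ0, τ + 2) : Lab)) := hj
              rw [ht] at hj'
              exact not_isMain_inr _ hj'
            · exact not_main_of_aux (hν.2 j (by omega)) hj

end Pool.Agent.Helper25.LD
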